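import Pool.Agent.Helper71.PR.Goals

/-!
# Packet PR-AA: nonempty admissible sets are everything
-/

set_option autoImplicit false

namespace Pool.Agent.Helper4.PR

open Matrix Filter Topology Pool.Agent.Helper71.PR

theorem transvection_submatrix {n : ℕ} (σ : Equiv.Perm (Fin n)) (i j : Fin n) (t : ℝ) :
    (Matrix.transvection (σ i) (σ j) t).submatrix σ σ = Matrix.transvection i j t := by
  ext a b
  simp only [Matrix.transvection, Matrix.submatrix_apply, Matrix.add_apply, Matrix.one_apply,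
    Matrix.single_apply, σ.injective.eq_iff]

theorem exists_perm {n : ℕ} (i0 i1 i j : Fin n) (h0 : i0 ≠ i1) (h : i ≠ j) :
    ∃ σ : Equiv.Perm (Fin n), σ i0 = i ∧ σ i1 = j := by
  refine ⟨(Equiv.swap i0 i).trans (Equiv.swap (Equiv.swap i0 i i1) j), ?_, ?_⟩
  · rw [Equiv.trans_apply, Equiv.swap_apply_left, Equiv.swap_apply_of_ne_of_ne]
    · intro hc
      have : Equiv.swap i0 i i0 = Equiv.swap i0 i i1 := by rw [Equiv.swap_apply_left]; exact hc
      exact h0 ((Equiv.swap i0 i).injective this)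
    · exact h
  · rw [Equiv.trans_apply, Equiv.swap_apply_left]

theorem step1 (h1 : G_A1) (h2 : G_P3) (h3 : G_EMB3) {n : ℕ} (hn : 3 ≤ n) (Γ : Subgroup (SLn n))
    (S : Set (Mt n)) (hZ : ZD Γ) (hS : Adm Γ S) (k : Mt n) (hk : k ∈ S) (t : ℝ) :
    k * Matrix.transvection (Fin.castLE hn 0) (Fin.castLE hn 1) t ∈ S := by
  obtain ⟨a, ha0, ha⟩ := h1 n (by omega) Γ S hZ hS k hk (Fin.castLE hn 0) (Fin.castLE hn 1)
    (by simp)
  obtain ⟨b, hb0, hb⟩ := h1 n (by omega) Γ S hZ hS k hk (Fin.castLE hn 1) (Fin.castLE hn 2)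
    (by simp)
  obtain ⟨Sg, hSg, h1g, hiff⟩ := h3 n hn Γ S hS k hk
  exact (hiff 0 1 t (by decide)).1 (h2 Sg hSg h1g ⟨a, ha0, (hiff 0 1 a (by decide)).2 ha⟩
    ⟨b, hb0, (hiff 1 2 b (by decide)).2 hb⟩ t)

theorem step2 (h1 : G_A1) (h2 : G_P3) (h3 : G_EMB3) {n : ℕ} (hn : 3 ≤ n) (Γ : Subgroup (SLn n))
    (S : Set (Mt n)) (hZ : ZD Γ) (hS : Adm Γ S) (i j : Fin n) (hij : i ≠ j) (t : ℝ) (k : Mt n)
    (hk : k ∈ S) : k * Matrix.transvection i j t ∈ S := by
  have h01 : (Fin.castLE hn 0 : Fin n) ≠ Fin.castLE hn 1 := by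
    intro h
    have := congrArg Fin.val h
    simp at this
  obtain ⟨σ, hσ0, hσ1⟩ := exists_perm _ _ i j h01 hij
  have hk' := hS.perm k hk σ
  have h := step1 h1 h2 h3 hn Γ S hZ hS _ hk' t
  have e : k.submatrix id σ * Matrix.transvection (Fin.castLE hn 0) (Fin.castLE hn 1) t =
      (k * Matrix.transvection i j t).submatrix id σ := by
    rw [← transvection_submatrix σ, hσ0, hσ1]
    exact Matrix.submatrix_mul_equiv _ _ _ _ _
  rw [e] at h
  have h' := hS.perm _ h σ⁻¹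
  rw [Matrix.submatrix_submatrix] at h'
  have e2 : (⇑σ ∘ ⇑σ⁻¹) = (id : Fin n → Fin n) := by
    funext x
    simp
  rw [e2] at h'
  simpa using h'

theorem aa (h1 : G_A1) (h2 : G_P3) (h3 : G_EMB3) : G_AA := by
  intro n hn Γ S hZ hS hne g hg
  have key : ∀ M : Mt n, M.det ≠ 0 → ∀ k ∈ S, k * M ∈ S := by
    intro M hM
    refine Matrix.diagonal_transvection_induction_of_det_ne_zero
      (fun M : Mt n => ∀ k ∈ S, k * M ∈ S) M hM ?_ ?_ ?_
    · intro D hD k hk
      refine hS.diag k hk D fun i hi => hD ?_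
      rw [Matrix.det_diagonal]
      exact Finset.prod_eq_zero (Finset.mem_univ i) hi
    · intro t k hk
      exact step2 h1 h2 h3 hn Γ S hZ hS t.i t.j t.hij t.c k hk
    · intro A B _ _ hA hB k hk
      rw [← Matrix.mul_assoc]
      exact hB _ (hA _ hk)
  obtain ⟨k, hk⟩ := hne
  have hkdet := hS.det k hk
  have hu : IsUnit k.det := isUnit_iff_ne_zero.2 hkdet
  have e : g = k * (k⁻¹ * g) := by
    rw [← Matrix.mul_assoc, Matrix.mul_nonsing_inv _ hu, Matrix.one_mul]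
  rw [e]
  refine key _ ?_ k hk
  rw [Matrix.det_mul]
  refine mul_ne_zero ?_ hg
  rw [Matrix.det_nonsing_inv]
  simpa using hkdet

end Pool.Agent.Helper4.PR
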